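import Pool.Agent.Helper93.TS.Stmts

/-! Two-scale sums-differences: the cost `cPQ`. -/

set_option autoImplicit false

namespace Pool.Agent.Helper93.TS

open Pool.Agent.Helper8.Kak

theorem cPQ_fd_le (N : ℕ) (hN : 1 ≤ N) : fd N ≤ cd N := by
  unfold fd cd
  have h1 : (1 : ℝ) ≤ N := by exact_mod_cast hN
  rw [Nat.cast_mul]
  refine one_div_le_one_div_of_le (by linarith) ?_
  nlinarith

theorem cPQ_ht (N : ℕ) (hN : 1 ≤ N) (t b : Fin (N * N)) (h : Jc b = Jc t) :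
    |ht t - ht b| ≤ cd N := by
  have h1 : (1 : ℝ) ≤ N := by exact_mod_cast hN
  have h2 : (b : ℕ) / N = (t : ℕ) / N := congrArg Fin.val h
  have h3 := Nat.div_add_mod (t : ℕ) N
  have h4 := Nat.div_add_mod (b : ℕ) N
  have h5 := Nat.mod_lt (t : ℕ) hN
  have h6 := Nat.mod_lt (b : ℕ) hN
  rw [h2] at h4
  have h7 : (t : ℕ) ≤ (b : ℕ) + N := by omega
  have h8 : (b : ℕ) ≤ (t : ℕ) + N := by omega
  have h7' : ((t : ℕ) : ℝ) ≤ ((b : ℕ) : ℝ) + N := by exact_mod_cast h7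
  have h8' : ((b : ℕ) : ℝ) ≤ ((t : ℕ) : ℝ) + N := by exact_mod_cast h8
  have h9 : |((t : ℕ) : ℝ) - ((b : ℕ) : ℝ)| ≤ N := by
    rw [abs_le]
    constructor <;> linarith
  unfold ht cd
  rw [← sub_div, abs_div, Nat.cast_mul, abs_of_pos (by nlinarith : (0 : ℝ) < (N : ℝ) * N),
    div_le_div_iff₀ (by nlinarith) (by linarith)]
  nlinarith

open VV in
theorem st_cPQ (h1 : ST_PRE) : ST_cPQ := by
  intro m N D
  have hP := h1 m N D
  have hN := D.hN
  have hκ := hP.κ0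
  have hN1 : (1 : ℝ) ≤ N := by exact_mod_cast hN
  have hcd : 0 < cd N := by
    unfold cd
    positivity
  have hfd : 0 < fd N := by
    unfold fd
    rw [Nat.cast_mul]
    positivity
  have hle := cPQ_fd_le N hN
  refine cost_le D.V _ _ VV.P0c (by decide +kernel) _ fun r hr => ?_
  simp only [Finset.mem_insert, Finset.mem_singleton, forall_eq_or_imp, forall_eq, Dat.V_Q,
    Dat.V_B, Dat.V_T0] at hr
  have h2 := Pool.Agent.Helper89.KakGeo.CE_known hP.hp hcd r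
    (fun y => pnt D.x D.v (D.l (z0 y)) (D.T (z0 y)))
    (fun y i => fd N * ((D.Pf (D.l (z0 y)) (D.T (zB y)) i : ℤ) : ℝ))
    (fun _ => 1) (a := 2) (k := 7) (by norm_num) (by norm_num) (fun _ => le_rfl)
    (fun y y' _ _ g => ⟨by
      funext i
      rw [(hr y y' g).1], rfl⟩) (by
      intro y hy i
      have e1 := Pool.Agent.Helper89.KakGeo.cell_err hfd
        (pnt D.x D.v (D.l (z0 y)) (D.T (zB y))) i
      have e2 := cPQ_ht N hN _ _ (hP.lk y hy).tB
      have e3 : |D.v (D.l (z0 y)) i| ≤ 1 := D.hv _ _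
      have e4 : |(ht (D.T (z0 y)) - ht (D.T (zB y))) * D.v (D.l (z0 y)) i| ≤ cd N * 1 := by
        rw [abs_mul]
        exact mul_le_mul e2 e3 (abs_nonneg _) hcd.le
      have e5 : pnt D.x D.v (D.l (z0 y)) (D.T (z0 y)) i
          - fd N * ((D.Pf (D.l (z0 y)) (D.T (zB y)) i : ℤ) : ℝ)
          = (pnt D.x D.v (D.l (z0 y)) (D.T (zB y)) i
            - fd N * ((D.Pf (D.l (z0 y)) (D.T (zB y)) i : ℤ) : ℝ))
            + (ht (D.T (z0 y)) - ht (D.T (zB y))) * D.v (D.l (z0 y)) i := by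
        unfold pnt
        ring
      rw [e5]
      refine (abs_add_le _ _).trans ?_
      have e6 : |pnt D.x D.v (D.l (z0 y)) (D.T (zB y)) i
            - fd N * ((D.Pf (D.l (z0 y)) (D.T (zB y)) i : ℤ) : ℝ)| ≤ fd N := e1
      linarith)
  have h3 : Ex D.pz (fun _ => Real.log 1) = 0 := by
    rw [Real.log_one]
    unfold Ex
    simp
  rw [h3, zero_add] at h2
  have h4 : CE D.pz (D.V VV.P0c) r ≤ m * Real.log 7 := h2
  refine h4.trans ?_
  unfold Dat.kc
  have h5 := log7_le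
  have h6 : (0 : ℝ) ≤ m := Nat.cast_nonneg m
  have h7 : (m : ℝ) * Real.log 7 ≤ m * 2.1 := mul_le_mul_of_nonneg_left h5 h6
  nlinarith [mul_nonneg h6 hκ]

end Pool.Agent.Helper93.TS
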